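import Pool.Agent.Helper64.RN.Goals
import Pool.Agent.Helper93.IG.ACT
import Pool.Agent.Helper99.IG.MONO

/-!
# Project RN (MP_d01c92_ag), packet MV (helper50): moving a minor into place
-/

open scoped BigOperators

universe u

namespace Pool.Agent.Helper50.RN.MV

open Pool.Agent.Helper64.IG Pool.Agent.Helper64.RN
open Pool.Agent.Helper64.IG.PkMONO (s_self c_self inc_inj)

/-- A decomposable form is alternating. -/
theorem alt {K : Type u} [Field K] {n p : ℕ} {ω : Form K n p} (h : IsDec ω) (τ : Equiv.Perm (Fin p))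
    (a : Fin p → Ix n p) : ω (a ∘ τ) = ((Equiv.Perm.sign τ : ℤ) : K) * ω a := by
  obtain ⟨c, φ, hφ⟩ := h
  rw [hφ, hφ]
  have h1 : (Matrix.of fun i j => φ i ((a ∘ τ) j)) =
      (Matrix.of fun i j => φ i (a j)).submatrix id τ := by
    ext i j
    rfl
  have h2 := Matrix.det_permute' τ (Matrix.of fun i j => φ i (a j))
  rw [← h1] at h2
  change c * Matrix.det (Matrix.of fun i j => φ i ((a ∘ τ) j)) =
    ((Equiv.Perm.sign τ : ℤ) : K) * (c * Matrix.det (Matrix.of fun i j => φ i (a j)))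
  rw [h2]
  ring

/-- One level down in both directions. -/
theorem down {K : Type u} [Field K] (x : Pt K) (m q : ℕ) (B : Fin q → Ix m q) :
    x.x m q B = x.x (m + 1) (q + 1) (Fin.cons (Sum.inr (Fin.last q))
      (inc (Nat.le_succ m) (Nat.le_succ q) ∘ B)) := by
  have h1 := congrFun (x.xi_eq m q) B
  have h2 := congrFun (x.theta_eq (m + 1) q) (inc (Nat.le_succ m) le_rfl ∘ B)
  rw [← h1]
  unfold xi
  rw [← h2]
  unfold theta
  congr 1
  have h3 : (inc le_rfl (Nat.le_succ q) ∘ (inc (Nat.le_succ m) le_rfl ∘ B) :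
      Fin q → Ix (m + 1) (q + 1)) = inc (Nat.le_succ m) (Nat.le_succ q) ∘ B := by
    funext j
    simp only [Function.comp_apply]
    cases B j <;> simp [inc]
  rw [h3]

/-- An injective map defined on a part extends to a permutation. -/
theorem ext_perm {α β : Type} [Finite β] (F G : α → β) (hF : Function.Injective F)
    (hG : Function.Injective G) : ∃ σ : Equiv.Perm β, ∀ a, σ (F a) = G a := by
  classical
  have := Fintype.ofFinite β
  let e : {x // x ∈ Set.range F} ≃ {x // x ∈ Set.range G} :=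
    (Equiv.ofInjective F hF).symm.trans (Equiv.ofInjective G hG)
  refine ⟨e.extendSubtype, fun a => ?_⟩
  rw [Equiv.extendSubtype_apply_of_mem e (F a) ⟨a, rfl⟩]
  have h1 : (Equiv.ofInjective F hF).symm ⟨F a, a, rfl⟩ = a := by
    rw [Equiv.symm_apply_eq]
    rfl
  change ((Equiv.ofInjective G hG) ((Equiv.ofInjective F hF).symm ⟨F a, _⟩) : β) = G a
  rw [h1]
  rfl

theorem t (hDN : S_DN.{u}) : S_MV.{u} := by
  intro K _ C hC x hx n p m q r eq s ι hinj T c0 hT hc0
  classical
  obtain rfl : q = p + r := by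
    have := Fintype.card_congr eq
    simpa using this
  have hnm : n ≤ m := by
    have := Fintype.card_le_of_injective _ hinj
    simp at this
    omega
  obtain ⟨eq1, h1⟩ := hDN n p (m + 1) (r + 1) (by omega)
  -- the two injective maps
  obtain ⟨inn, hinn⟩ : ∃ f : Ix n p → Ix (m + 1) (p + (r + 1)),
      f = inc (by omega : n ≤ m + 1) (Nat.le_add_right p (r + 1)) := ⟨_, rfl⟩
  obtain ⟨in', hin'⟩ : ∃ f : Ix m (p + r) → Ix (m + 1) (p + (r + 1)),
      f = inc (Nat.le_succ m) (Nat.le_succ (p + r)) := ⟨_, rfl⟩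
  have inn_inj : Function.Injective inn := by rw [hinn]; exact inc_inj _ _
  have in'_inj : Function.Injective in' := by rw [hin']; exact inc_inj _ _
  obtain ⟨L, hL⟩ : ∃ L : Ix (m + 1) (p + (r + 1)), L = Sum.inr (Fin.last (p + r)) := ⟨_, rfl⟩
  obtain ⟨F, hF⟩ : ∃ F : Ix n p ⊕ Fin (r + 1) → Ix (m + 1) (p + (r + 1)),
      F = Sum.elim inn (fun i => Sum.inr (Fin.natAdd p i)) := ⟨_, rfl⟩
  obtain ⟨G, hG⟩ : ∃ G : Ix n p ⊕ Fin (r + 1) → Ix (m + 1) (p + (r + 1)),
      G = Sum.elim (in' ∘ ι) (Fin.snoc (α := fun _ => Ix (m + 1) (p + (r + 1))) (in' ∘ s) L) :=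
    ⟨_, rfl⟩
  have hLin' : ∀ b, in' b ≠ L := by
    intro b hb
    rw [hin', hL] at hb
    cases b with
    | inl i => simp [inc] at hb
    | inr j =>
      simp only [inc, Sum.map_inr, Sum.inr.injEq, Fin.ext_iff, Fin.val_castLE, Fin.val_last] at hb
      have := j.2
      omega
  have F_inj : Function.Injective F := by
    rw [hF, Sum.elim_injective]
    refine ⟨inn_inj, ?_, ?_⟩
    · intro i j hij
      simpa [Fin.ext_iff] using hij
    · intro a b hab
      rw [hinn] at hab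
      cases a with
      | inl i => simp [inc] at hab
      | inr i =>
        simp only [inc, Sum.map_inr, Sum.inr.injEq, Fin.ext_iff, Fin.val_castLE,
          Fin.val_natAdd] at hab
        have := i.2
        omega
  have hinj' := Sum.elim_injective.1 hinj
  have G_inj : Function.Injective G := by
    rw [hG, Sum.elim_injective]
    refine ⟨in'_inj.comp hinj'.1, ?_, ?_⟩
    · rw [Fin.snoc_injective_iff]
      refine ⟨in'_inj.comp hinj'.2.1, ?_⟩
      rintro ⟨i, hi⟩
      exact hLin' _ hi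
    · intro a b
      refine Fin.lastCases ?_ (fun j => ?_) b
      · rw [Fin.snoc_last]
        exact hLin' _
      · rw [Fin.snoc_castSucc]
        intro hab
        exact hinj'.2.2 a j (in'_inj hab)
  obtain ⟨σ, hσ⟩ := ext_perm F G F_inj G_inj
  -- the second enumeration
  obtain ⟨e2, he2⟩ : ∃ e2 : Fin (p + r + 1) → Fin p ⊕ Fin (r + 1),
      e2 = Fin.cons (Sum.inr (Fin.last r)) (fun j => Sum.map id Fin.castSucc (eq j)) := ⟨_, rfl⟩
  have e2_bij : Function.Bijective e2 := by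
    rw [Fintype.bijective_iff_injective_and_card]
    refine ⟨?_, by simp; omega⟩
    rw [he2, Fin.cons_injective_iff]
    refine ⟨?_, ?_⟩
    · rintro ⟨j, hj⟩
      dsimp only at hj
      cases h : eq j with
      | inl i => rw [h] at hj; simp at hj
      | inr i =>
        rw [h] at hj
        simp only [Sum.map_inr, Sum.inr.injEq] at hj
        exact absurd hj (Fin.castSucc_lt_last i).ne
    · intro i j hij
      exact eq.injective (Sum.map_injective.2 ⟨Function.injective_id,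
        Fin.castSucc_injective r⟩ hij)
  obtain ⟨eq2, heq2⟩ : ∃ eq2 : Fin (p + (r + 1)) ≃ Fin p ⊕ Fin (r + 1), ∀ j, eq2 j = e2 j :=
    ⟨Equiv.ofBijective e2 e2_bij, fun _ => rfl⟩
  obtain ⟨τ, hτ⟩ : ∃ τ : Equiv.Perm (Fin (p + (r + 1))), τ = eq1.trans eq2.symm := ⟨_, rfl⟩
  obtain ⟨sg, hsg⟩ : ∃ sg : K, sg = ((Equiv.Perm.sign τ : ℤ) : K) := ⟨_, rfl⟩
  have hsg2 : sg * sg = 1 := by
    rcases Int.units_eq_one_or (Equiv.Perm.sign τ) with h | h <;> rw [hsg, h] <;> simp
  have hsg0 : sg ≠ 0 := by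
    intro h
    rw [h] at hsg2
    simp at hsg2
  obtain ⟨c1, hc1⟩ : ∃ c1 : K, c1 = c0 * sg := ⟨_, rfl⟩
  have hc10 : c1 ≠ 0 := by rw [hc1]; exact mul_ne_zero hc0 hsg0
  -- the scalars
  obtain ⟨t0, ht0⟩ : ∃ t0 : Ix (m + 1) (p + (r + 1)) → K, t0 = Function.extend F
      (Sum.elim T (Fin.snoc (α := fun _ => K) (fun _ => 1) c1)) (fun _ => 1) := ⟨_, rfl⟩
  have t0F : ∀ z, t0 (F z) = Sum.elim T (Fin.snoc (α := fun _ => K) (fun _ => 1) c1) z := by
    intro z
    rw [ht0, F_inj.extend_apply]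
  have t0ne : ∀ i, t0 i ≠ 0 := by
    intro i
    by_cases h : ∃ z, F z = i
    · obtain ⟨z, rfl⟩ := h
      rw [t0F]
      rcases z with z | z
      · exact hT z
      · refine Fin.lastCases ?_ (fun j => ?_) z
        · simpa using hc10
        · simp
    · rw [ht0, Function.extend_apply' _ _ _ h]
      exact one_ne_zero
  obtain ⟨M, hM⟩ : ∃ M : Ix (m + 1) (p + (r + 1)), M = Sum.inl (Fin.last m) := ⟨_, rfl⟩
  have hMF : ∀ z, F z ≠ M := by
    intro z hz
    rw [hF, hM] at hz
    rcases z with z | z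
    · rw [Sum.elim_inl, hinn] at hz
      cases z with
      | inl i =>
        simp only [inc, Sum.map_inl, Sum.inl.injEq, Fin.ext_iff, Fin.val_castLE,
          Fin.val_last] at hz
        have := i.2
        omega
      | inr j => simp [inc] at hz
    · simp at hz
  obtain ⟨P, hP⟩ : ∃ P : K, P = ∏ i ∈ Finset.univ \ {M}, t0 i := ⟨_, rfl⟩
  have hP0 : P ≠ 0 := by rw [hP]; exact Finset.prod_ne_zero_iff.2 fun i _ => t0ne i
  obtain ⟨sσ, hsσ⟩ : ∃ sσ : K, sσ = ((Equiv.Perm.sign σ : ℤ) : K) := ⟨_, rfl⟩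
  have hsσ0 : sσ ≠ 0 := by
    rcases Int.units_eq_one_or (Equiv.Perm.sign σ) with h | h <;> rw [hsσ, h] <;> simp
  let g : Mono K (m + 1) (p + (r + 1)) :=
    { σ := σ
      t := Function.update t0 M (sσ * P)⁻¹
      det := by
        rw [Finset.prod_update_of_mem (Finset.mem_univ M), ← hP, ← hsσ]
        field_simp }
  have gt : ∀ z, g.t (F z) = Sum.elim T (Fin.snoc (α := fun _ => K) (fun _ => 1) c1) z := by
    intro z
    rw [← t0F]
    exact Function.update_of_ne (hMF z) _ _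
  obtain ⟨y, hy⟩ := PkACT.act K (m + 1) (p + (r + 1)) g x
  refine ⟨y, hC _ _ g (fun _ => Set.mem_univ _) x y hy hx, fun a => ?_⟩
  have hy' : ∀ A : Fin (p + (r + 1)) → Ix (m + 1) (p + (r + 1)),
      y.x (m + 1) (p + (r + 1)) A = (∏ j, g.t (A j)) * x.x (m + 1) (p + (r + 1)) (σ ∘ A) := by
    intro A
    rw [hy (m + 1) (p + (r + 1)) le_rfl le_rfl A]
    congr 1
    · exact Finset.prod_congr rfl fun j _ => c_self g (A j)
    · congr 1
      funext j
      exact s_self g (A j)
  have hA : (Sum.elim (inc (by omega : n ≤ m + 1) (Nat.le_add_right p (r + 1)) ∘ a)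
      (fun i : Fin (r + 1) => (Sum.inr (Fin.natAdd p i) : Ix (m + 1) (p + (r + 1)))) ∘ eq1) =
      F ∘ Sum.map a id ∘ eq1 := by
    funext j
    simp only [Function.comp_apply]
    rw [hF, hinn]
    cases eq1 j <;> rfl
  rw [h1 K y a, hA, hy']
  have hprod : ∏ j, g.t ((F ∘ Sum.map a id ∘ eq1) j) = (∏ j, T (a j)) * c1 := by
    have e1 : ∏ j, g.t ((F ∘ Sum.map a id ∘ eq1) j) = ∏ z, g.t (F (Sum.map a id z)) :=
      Equiv.prod_comp eq1 (fun z => g.t (F (Sum.map a id z)))
    rw [e1, Fintype.prod_sum_type]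
    simp only [gt, Sum.map_inl, Sum.map_inr, Sum.elim_inl, Sum.elim_inr, id]
    rw [Fin.prod_univ_castSucc]
    simp
  have hB : σ ∘ (F ∘ Sum.map a id ∘ eq1) =
      (Fin.cons (Sum.inr (Fin.last (p + r))) (inc (Nat.le_succ m) (Nat.le_succ (p + r)) ∘
        (Sum.elim (ι ∘ a) s ∘ eq)) : Fin (p + r + 1) → Ix (m + 1) (p + r + 1)) ∘ τ := by
    have e1 : (Fin.cons (Sum.inr (Fin.last (p + r))) (inc (Nat.le_succ m) (Nat.le_succ (p + r)) ∘
        (Sum.elim (ι ∘ a) s ∘ eq)) : Fin (p + r + 1) → Ix (m + 1) (p + r + 1)) =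
        fun j => G (Sum.map a id (e2 j)) := by
      funext j
      rw [he2, hG]
      refine Fin.cases ?_ (fun i => ?_) j
      · rw [Fin.cons_zero, Fin.cons_zero, Sum.map_inr, Sum.elim_inr, id, Fin.snoc_last, hL]
      · rw [Fin.cons_succ, Fin.cons_succ]
        simp only [Function.comp_apply]
        rw [← hin']
        cases eq i with
        | inl k => rfl
        | inr k =>
          rw [Sum.elim_inr, Sum.map_inr, Sum.map_inr, Sum.elim_inr, id, Fin.snoc_castSucc]
          rfl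
    rw [e1]
    funext j
    simp only [Function.comp_apply]
    rw [hσ, hτ]
    congr 2
    have : e2 ((eq1.trans eq2.symm) j) = eq1 j := by
      rw [← heq2]
      simp
    rw [this]
  rw [hprod, hB, alt (x.dec _ _)]
  refine (congrArg (fun z => (∏ j, T (a j)) * c1 * (((Equiv.Perm.sign τ : ℤ) : K) * z))
    (down x m (p + r) (Sum.elim (ι ∘ a) s ∘ eq)).symm).trans ?_
  rw [← hsg, hc1]
  linear_combination (∏ j, T (a j)) * c0 * x.x m (p + r) (Sum.elim (ι ∘ a) s ∘ eq) * hsg2

end Pool.Agent.Helper50.RN.MV
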